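import Pool.Agent.Lib.MP_b34cfe_co.Olson

set_option autoImplicit false

namespace Pool.Agent.Lib.MP_b34cfe_co

theorem exists_le_card {B : Type*} (S : Multiset B) {n : ℕ} (h : n ≤ S.card) :
    ∃ T ≤ S, T.card = n := by
  have h1 : 0 < (Multiset.powersetCard n S).card := by
    rw [Multiset.card_powersetCard]
    exact Nat.choose_pos h
  obtain ⟨T, hT⟩ := Multiset.card_pos_iff_exists_mem.1 h1
  exact ⟨T, (Multiset.mem_powersetCard.1 hT).1, (Multiset.mem_powersetCard.1 hT).2⟩

theorem le_map_cases {B C : Type*} (f : B → C) (S : Multiset B) :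
    ∀ U : Multiset C, U ≤ S.map f → ∃ T ≤ S, U = T.map f := by
  induction S using Multiset.induction_on with
  | empty =>
    intro U hU
    exact ⟨0, le_rfl, by simpa using hU⟩
  | cons a S ih =>
    intro U hU
    rw [Multiset.map_cons] at hU
    rcases le_cons_cases hU with h | ⟨U', rfl, h⟩
    · obtain ⟨T, h1, h2⟩ := ih U h
      exact ⟨T, h1.trans (Multiset.le_cons_self S a), h2⟩
    · obtain ⟨T, h1, rfl⟩ := ih U' h
      exact ⟨a ::ₘ T, Multiset.cons_le_cons a h1, by simp⟩

theorem le_add_cases {B : Type*} {T X Y : Multiset B} (h : T ≤ X + Y) :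
    ∃ T0 T1, T = T0 + T1 ∧ T0 ≤ X ∧ T1 ≤ Y := by
  classical
  refine ⟨T ∩ X, T - X, ?_, Multiset.inter_le_right, tsub_le_iff_left.2 h⟩
  rw [add_comm, Multiset.sub_add_inter]

variable (p : ℕ) [hp : Fact p.Prime] (k d M : ℕ)

/-- Generators of the lifted group. -/
def gen : Option (Fin d) → (Fin d → ZMod (p ^ k)) × ZMod (p ^ M)
  | none => (0, 1)
  | some i => (Pi.single i 1, 0)

/-- Exponents of the generators. -/
def expo : Option (Fin d) → ℕ
  | none => M
  | some _ => k

omit hp in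
theorem gen_pow (i : Option (Fin d)) : p ^ expo k d M i • gen p k d M i = 0 := by
  cases i with
  | none =>
    simp only [gen, expo, Prod.smul_mk, smul_zero, nsmul_eq_mul, mul_one]
    rw [ZMod.natCast_self]
    rfl
  | some i =>
    simp only [gen, expo, Prod.smul_mk, smul_zero]
    ext j
    · simp only [Pi.smul_apply, nsmul_eq_mul]
      rw [ZMod.natCast_self, zero_mul]
      rfl
    · rfl

theorem gen_span (g : (Fin d → ZMod (p ^ k)) × ZMod (p ^ M)) :
    ∃ c : Option (Fin d) → ℕ, g = ∑ i, c i • gen p k d M i := by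
  have : NeZero (p ^ k) := ⟨pow_ne_zero _ hp.out.ne_zero⟩
  have : NeZero (p ^ M) := ⟨pow_ne_zero _ hp.out.ne_zero⟩
  refine ⟨fun i => Option.elim i g.2.val (fun j => (g.1 j).val), ?_⟩
  rw [Fintype.sum_option]
  ext j
  · simp only [gen, Prod.fst_add, Prod.fst_sum, Prod.smul_mk, smul_zero, zero_add,
      Finset.sum_apply, Pi.smul_apply, Option.elim]
    simp [Pi.single_apply]
  · simp [gen, Prod.snd_sum]

omit hp in
theorem sum_expo : ∑ i, (p ^ expo k d M i - 1) = p ^ M - 1 + d * (p ^ k - 1) := by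
  rw [Fintype.sum_option]
  simp [expo]

omit hp in
theorem lift_back (S : Multiset (Fin d → ZMod (p ^ k)))
    (U : Multiset ((Fin d → ZMod (p ^ k)) × ZMod (p ^ M)))
    (hU : U ≤ S.map (fun g => (g, (1 : ZMod (p ^ M))))) (hU0 : U ≠ 0) (hs : U.sum = 0)
    (hc : S.card < 2 * p ^ M) : ∃ T ≤ S, T.card = p ^ M ∧ T.sum = 0 := by
  obtain ⟨T, hT, rfl⟩ := le_map_cases _ _ _ hU
  have h1 : (T.map (fun g => (g, (1 : ZMod (p ^ M))))).sum = (T.sum, (T.card : ZMod (p ^ M))) := by
    clear hU hU0 hs hT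
    induction T using Multiset.induction_on with
    | empty => simp [Prod.ext_iff]
    | cons a T ih => simp [ih, add_comm]
  rw [h1, Prod.mk_eq_zero] at hs
  refine ⟨T, hT, ?_, hs.1⟩
  obtain ⟨c, hc'⟩ := (ZMod.natCast_eq_zero_iff _ _).1 hs.2
  have h2 : T.card ≤ S.card := Multiset.card_le_card hT
  have h3 : T.card ≠ 0 := by
    intro h
    apply hU0
    rw [Multiset.card_eq_zero.1 h]
    simp
  have h4 : c = 1 := by
    rcases c with _ | _ | c
    · simp [hc'] at h3
    · rfl
    · nlinarith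
  rw [hc', h4, mul_one]

/-- The unmodified bound for lengths that are large powers of `p`. -/
theorem base_all (hM : d * (p ^ k - 1) + 1 ≤ p ^ M) (S : Multiset (Fin d → ZMod (p ^ k)))
    (hS : p ^ M + d * (p ^ k - 1) ≤ S.card) : ∃ T ≤ S, T.card = p ^ M ∧ T.sum = 0 := by
  obtain ⟨S', h1, h2⟩ := exists_le_card S hS
  obtain ⟨U, a1, a2, a3⟩ := olson p (gen p k d M) (expo k d M) (gen_pow p k d M)
    (gen_span p k d M) (S'.map (fun g => (g, (1 : ZMod (p ^ M))))) (by
      rw [sum_expo, Multiset.card_map, h2]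
      omega)
  obtain ⟨T, b1, b2, b3⟩ := lift_back p k d M S' U a1 a2 a3 (by omega)
  exact ⟨T, b1.trans h1, b2, b3⟩

/-- The modified bound for lengths that are large powers of `p`. -/
theorem base_mod (hk : 0 < k) (hd : 0 < d) (hM : d * (p ^ k - 1) + 1 ≤ p ^ M) (hpd : p ∣ d + 1)
    (S : Multiset (Fin d → ZMod (p ^ k))) (hS0 : S.sum = 0)
    (hS : p ^ M + d * (p ^ k - 1) - 1 ≤ S.card) : ∃ T ≤ S, T.card = p ^ M ∧ T.sum = 0 := by
  rcases hS.lt_or_eq with h | h
  · exact base_all p k d M hM S (by omega)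
  have hq : 2 ≤ p ^ k := le_trans hp.out.two_le (Nat.le_self_pow hk.ne' p)
  have hpos : 1 ≤ d * (p ^ k - 1) := Nat.mul_pos hd (by omega)
  have hM0 : M ≠ 0 := by
    rintro rfl
    simp only [pow_zero] at hM
    omega
  have hdiv : p ∣ S.card := by
    have e1 : S.card + (d + 1) = p ^ M + d * p ^ k := by
      have : d * (p ^ k - 1) + d = d * p ^ k := by
        rw [← Nat.mul_succ]
        congr 1
        omega
      omega
    have e2 : p ∣ S.card + (d + 1) := by
      rw [e1]
      exact dvd_add (dvd_pow_self p hM0) (Dvd.dvd.mul_left (dvd_pow_self p hk.ne') d)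
    exact (Nat.dvd_add_left hpd).1 e2
  obtain ⟨c, hc⟩ := hdiv
  have h1 : ∀ T : Multiset (Fin d → ZMod (p ^ k)),
      (T.map (fun g => (g, (1 : ZMod (p ^ M))))).sum = (T.sum, (T.card : ZMod (p ^ M))) := by
    intro T
    induction T using Multiset.induction_on with
    | empty => simp [Prod.ext_iff]
    | cons a T ih => simp [ih, add_comm]
  obtain ⟨U, a1, a2, a3⟩ := olson_mul p (gen p k d M) (expo k d M) (gen_pow p k d M)
    (gen_span p k d M) (S.map (fun g => (g, (1 : ZMod (p ^ M))))) (by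
      rw [sum_expo, Multiset.card_map, ← h]
      omega) (by
      intro h0
      rw [Multiset.map_eq_zero] at h0
      rw [h0, Multiset.card_zero] at h
      omega) (0, (c : ZMod (p ^ M))) (by
      rw [h1, hS0, hc]
      simp)
  exact lift_back p k d M S U a1 a2 a3 (by omega)

/-- Every zero-sum sequence of length at least `n + r` has a zero-sum part of length `n`. -/
def Pr {G : Type*} [AddCommGroup G] (n r : ℕ) : Prop :=
  ∀ S : Multiset G, S.sum = 0 → n + r ≤ S.card → ∃ T ≤ S, T.card = n ∧ T.sum = 0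

theorem Pr.add {G : Type*} [AddCommGroup G] {n r u : ℕ} (h : Pr (G := G) n r)
    (hu : ∀ S : Multiset G, n + u + r ≤ S.card → ∃ T ≤ S, T.card = u ∧ T.sum = 0) :
    Pr (G := G) (n + u) r := by
  intro S hS0 hS
  obtain ⟨T, h1, h2, h3⟩ := hu S hS
  obtain ⟨W, rfl⟩ := Multiset.le_iff_exists_add.1 h1
  rw [Multiset.sum_add, h3, zero_add] at hS0
  rw [Multiset.card_add, h2] at hS
  obtain ⟨V, a1, a2, a3⟩ := h W hS0 (by omega)
  refine ⟨T + V, add_le_add_right a1 _, ?_, ?_⟩
  · rw [Multiset.card_add, h2, a2, add_comm]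
  · rw [Multiset.sum_add, h3, a3, add_zero]

theorem pigeon0 (S : Multiset (Fin d → ZMod p)) (hS : p ^ d * (p - 1) + 1 ≤ S.card) :
    ∃ g, p ≤ S.count g := by
  classical
  by_contra hcon
  push Not at hcon
  have e1 : S.card = ∑ g, S.count g := by
    rw [← Multiset.toFinset_sum_count_eq]
    refine Finset.sum_subset (Finset.subset_univ _) ?_
    intro g _ hg
    simpa using hg
  have e2 : ∑ g, S.count g ≤ ∑ _g : Fin d → ZMod p, (p - 1) :=
    Finset.sum_le_sum (fun g _ => by have := hcon g; omega)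
  rw [Finset.sum_const, Finset.card_univ, Fintype.card_pi, smul_eq_mul] at e2
  simp only [ZMod.card, Finset.prod_const, Finset.card_univ, Fintype.card_fin] at e2
  omega

theorem pigeon1 (hk : 0 < k) (S : Multiset (Fin d → ZMod (p ^ k)))
    (hS : p ^ d * (p - 1) + 1 ≤ S.card) : ∃ T ≤ S, T.card = p ∧ ∃ g, T.sum = p • g := by
  classical
  have : NeZero (p ^ k) := ⟨pow_ne_zero _ hp.out.ne_zero⟩
  let φ : ZMod (p ^ k) →+* ZMod p := ZMod.castHom (dvd_pow_self p hk.ne') (ZMod p)
  let ψ : (Fin d → ZMod (p ^ k)) →+ (Fin d → ZMod p) := φ.toAddMonoidHom.compLeft (Fin d)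
  obtain ⟨v, hv⟩ := pigeon0 p d (S.map ψ) (by rwa [Multiset.card_map])
  obtain ⟨T, h1, h2⟩ := le_map_cases ψ S _ (Multiset.le_count_iff_replicate_le.1 hv)
  have h3 : T.card = p := by
    have := congrArg Multiset.card h2
    simpa using this.symm
  refine ⟨T, h1, h3, ?_⟩
  have h4 : ψ T.sum = 0 := by
    rw [map_multiset_sum, ← h2, Multiset.sum_replicate]
    ext j
    simp
  have h5 : ∀ j, ∃ y : ZMod (p ^ k), T.sum j = p • y := by
    intro j
    have h6 : φ (T.sum j) = 0 := congrFun h4 j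
    rw [← ZMod.natCast_zmod_val (T.sum j), map_natCast, ZMod.natCast_eq_zero_iff] at h6
    obtain ⟨c, hc⟩ := h6
    refine ⟨c, ?_⟩
    rw [← ZMod.natCast_zmod_val (T.sum j), hc]
    simp
  choose y hy using h5
  exact ⟨y, funext hy⟩

theorem groups (hk : 0 < k) (m : ℕ) : ∀ S : Multiset (Fin d → ZMod (p ^ k)),
    m * p + p ^ d * (p - 1) + 1 ≤ S.card + p →
      ∃ L : Multiset (Multiset (Fin d → ZMod (p ^ k)) × (Fin d → ZMod (p ^ k))),
        L.card = m ∧ (L.map Prod.fst).sum ≤ S ∧ ∀ x ∈ L, x.1.card = p ∧ x.1.sum = p • x.2 := by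
  induction m with
  | zero =>
    intro S _
    exact ⟨0, rfl, by simp, by simp⟩
  | succ m ih =>
    intro S hS
    rw [add_mul, one_mul] at hS
    obtain ⟨T, h1, h2, g, h3⟩ := pigeon1 p k d hk S (by omega)
    obtain ⟨W, rfl⟩ := Multiset.le_iff_exists_add.1 h1
    rw [Multiset.card_add, h2] at hS
    obtain ⟨L, a1, a2, a3⟩ := ih W (by omega)
    refine ⟨(T, g) ::ₘ L, by simp [a1], ?_, ?_⟩
    · rw [Multiset.map_cons, Multiset.sum_cons]
      exact add_le_add_right a2 _
    · intro x hx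
      rcases Multiset.mem_cons.1 hx with rfl | hx
      · exact ⟨h2, h3⟩
      · exact a3 x hx

theorem pigeon_pow (hk : 0 < k) (j : ℕ) : ∀ S : Multiset (Fin d → ZMod (p ^ k)),
    p ^ d * (p ^ j - 1) + 1 ≤ S.card → ∃ T ≤ S, T.card = p ^ j ∧ ∃ g, T.sum = p ^ j • g := by
  induction j with
  | zero =>
    intro S hS
    obtain ⟨T, h1, h2⟩ := exists_le_card S (n := 1) (by omega)
    exact ⟨T, h1, by simpa using h2, T.sum, by simp⟩
  | succ j ih =>
    intro S hS
    have hp1 : 1 ≤ p := hp.out.pos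
    have hpj : 1 ≤ p ^ j := Nat.one_le_pow _ _ hp.out.pos
    obtain ⟨L, a1, a2, a3⟩ := groups p k d hk (p ^ d * (p ^ j - 1) + 1) S (by
      have e : p ^ (j + 1) - 1 = (p ^ j - 1) * p + (p - 1) := by
        rw [pow_succ, Nat.sub_mul, one_mul]
        have : p ≤ p ^ j * p := Nat.le_mul_of_pos_left _ hpj
        omega
      rw [e, mul_add, ← mul_assoc] at hS
      rw [add_mul, one_mul]
      omega)
    obtain ⟨U, b1, b2, g, b3⟩ := ih (L.map Prod.snd) (by rw [Multiset.card_map, a1])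
    obtain ⟨L', c1, rfl⟩ := le_map_cases _ _ _ b1
    rw [Multiset.card_map] at b2
    have key : ∀ L'' : Multiset (Multiset (Fin d → ZMod (p ^ k)) × (Fin d → ZMod (p ^ k))),
        (∀ x ∈ L'', x.1.card = p ∧ x.1.sum = p • x.2) →
          (L''.map Prod.fst).sum.card = L''.card * p ∧
          (L''.map Prod.fst).sum.sum = p • (L''.map Prod.snd).sum := by
      intro L'' h
      induction L'' using Multiset.induction_on with
      | empty => simp
      | cons x L'' ih' =>
        obtain ⟨i1, i2⟩ := ih' (fun y hy => h y (Multiset.mem_cons_of_mem hy))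
        obtain ⟨i3, i4⟩ := h x (Multiset.mem_cons_self _ _)
        simp only [Multiset.map_cons, Multiset.sum_cons, Multiset.card_add, Multiset.sum_add,
          Multiset.card_cons, i1, i2, i3, i4, smul_add]
        exact ⟨by ring, trivial⟩
    obtain ⟨k1, k2⟩ := key L' (fun x hx => a3 x (Multiset.mem_of_le c1 hx))
    refine ⟨(L'.map Prod.fst).sum, le_trans ?_ a2, by rw [k1, b2, pow_succ], g, ?_⟩
    · obtain ⟨W, rfl⟩ := Multiset.le_iff_exists_add.1 c1
      rw [Multiset.map_add, Multiset.sum_add]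
      exact Multiset.le_add_right _ _
    · rw [k2, b3, smul_smul, pow_succ']

theorem pigeon (hk : 0 < k) (S : Multiset (Fin d → ZMod (p ^ k)))
    (hS : p ^ d * (p ^ k - 1) + 1 ≤ S.card) : ∃ T ≤ S, T.card = p ^ k ∧ T.sum = 0 := by
  obtain ⟨T, h1, h2, g, h3⟩ := pigeon_pow p k d hk k S hS
  refine ⟨T, h1, h2, ?_⟩
  rw [h3]
  ext j
  simp only [Pi.smul_apply, nsmul_eq_mul]
  rw [ZMod.natCast_self, zero_mul]
  rfl

theorem upper_mul (hk : 0 < k) (hd : 0 < d) (a : ℕ) (ha : d * (p ^ k - 1) < p ^ k * p ^ a)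
    (m : ℕ) : Pr (G := Fin d → ZMod (p ^ k)) (p ^ k * (p ^ a * (m + 1)))
      (d * (p ^ k - 1) - if p ∣ d + 1 then 1 else 0) := by
  have hq : 2 ≤ p ^ k := le_trans hp.out.two_le (Nat.le_self_pow hk.ne' p)
  have hpos : 1 ≤ d * (p ^ k - 1) := Nat.mul_pos hd (by omega)
  have hM : d * (p ^ k - 1) + 1 ≤ p ^ (k + a) := by
    rw [pow_add]
    omega
  induction m with
  | zero =>
    rw [zero_add, mul_one, ← pow_add]
    intro S hS0 hS
    split_ifs at hS with h
    · exact base_mod p k d (k + a) hk hd hM h S hS0 (by omega)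
    · exact base_all p k d (k + a) hM S (by omega)
  | succ m ih =>
    have e : p ^ k * (p ^ a * (m + 1 + 1)) = p ^ k * (p ^ a * (m + 1)) + p ^ (k + a) := by
      rw [pow_add]
      ring
    rw [e]
    refine ih.add fun S hS => base_all p k d (k + a) hM S ?_
    have : 1 ≤ p ^ k * (p ^ a * (m + 1)) :=
      Nat.mul_pos (by omega) (Nat.mul_pos (pow_pos hp.out.pos a) (by omega))
    split_ifs at hS <;> omega

theorem upper_big (hk : 0 < k) (hd : 0 < d) (t : ℕ) (ht : p ^ d ≤ t) :
    Pr (G := Fin d → ZMod (p ^ k)) (p ^ k * t)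
      (d * (p ^ k - 1) - if p ∣ d + 1 then 1 else 0) := by
  have hq : 2 ≤ p ^ k := le_trans hp.out.two_le (Nat.le_self_pow hk.ne' p)
  induction t, ht using Nat.le_induction with
  | base =>
    have h1 : d ≤ p ^ d := (Nat.lt_pow_self hp.out.one_lt).le
    have h2 : d * (p ^ k - 1) < p ^ k * p ^ d := by
      have e1 : d * (p ^ k - 1) + d = d * p ^ k := by
        rw [← Nat.mul_succ]
        congr 1
        omega
      have e2 : d * p ^ k ≤ p ^ d * p ^ k := Nat.mul_le_mul_right _ h1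
      rw [mul_comm (p ^ k)]
      omega
    have := upper_mul p k d hk hd d h2 0
    rwa [zero_add, mul_one] at this
  | succ t ht ih =>
    rw [mul_add, mul_one]
    refine ih.add fun S hS => pigeon p k d hk S ?_
    have h1 : p ^ d * (p ^ k - 1) ≤ p ^ k * t := by
      rw [mul_comm]
      exact Nat.mul_le_mul (by omega) ht
    omega

/-- Translating a sequence of length prime to `p` makes it zero-sum. -/
theorem translate (n : ℕ) (hn : p ^ k ∣ n) (S : Multiset (Fin d → ZMod (p ^ k)))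
    (hc : ¬ p ∣ S.card) (hS : ∀ T ≤ S, T.card = n → T.sum ≠ 0) :
    ∃ S' : Multiset (Fin d → ZMod (p ^ k)), S'.sum = 0 ∧ S'.card = S.card ∧
      ∀ T ≤ S', T.card = n → T.sum ≠ 0 := by
  have hcop : Nat.Coprime S.card (p ^ k) :=
    (((Nat.Prime.coprime_iff_not_dvd hp.out).2 hc).symm).pow_right k
  set w : ZMod (p ^ k) := Units.val (ZMod.unitOfCoprime _ hcop)⁻¹ with hw
  have hw1 : (S.card : ZMod (p ^ k)) * w = 1 := by
    rw [hw, ← ZMod.coe_unitOfCoprime _ hcop]
    exact Units.mul_inv _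
  set g : Fin d → ZMod (p ^ k) := w • (-S.sum) with hg
  have h1 : ∀ T : Multiset (Fin d → ZMod (p ^ k)),
      (T.map (fun x => x + g)).sum = T.sum + T.card • g := by
    intro T
    rw [Multiset.sum_map_add]
    simp
  refine ⟨S.map (fun x => x + g), ?_, by simp, ?_⟩
  · rw [h1, hg, ← Nat.cast_smul_eq_nsmul (ZMod (p ^ k)), smul_smul, hw1, one_smul, add_neg_cancel]
  · intro T hT hTc
    obtain ⟨T', hT', rfl⟩ := le_map_cases _ _ _ hT
    rw [Multiset.card_map] at hTc
    rw [h1, hTc, ← Nat.cast_smul_eq_nsmul (ZMod (p ^ k)), (ZMod.natCast_eq_zero_iff _ _).2 hn,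
      zero_smul, add_zero]
    exact hS T' hT' hTc

theorem basis_free (s : Finset (Fin d)) : ∀ T : Multiset (Fin d → ZMod (p ^ k)),
    T ≤ ∑ i ∈ s, Multiset.replicate (p ^ k - 1) (Pi.single i 1) →
      (∀ j ∉ s, T.sum j = 0) ∧ (T.sum = 0 → T = 0) := by
  classical
  have hq : 1 ≤ p ^ k := Nat.one_le_pow _ _ hp.out.pos
  induction s using Finset.induction_on with
  | empty =>
    intro T hT
    have : T = 0 := by simpa using hT
    subst this
    simp
  | insert a s ha ih =>
    intro T hT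
    rw [Finset.sum_insert ha] at hT
    obtain ⟨T0, T1, rfl, h0, h1⟩ := le_add_cases hT
    obtain ⟨m, hm, rfl⟩ := Multiset.le_replicate_iff.1 h0
    obtain ⟨i1, i2⟩ := ih T1 h1
    rw [Multiset.sum_add, Multiset.sum_replicate]
    constructor
    · intro j hj
      rw [Finset.mem_insert, not_or] at hj
      rw [Pi.add_apply, i1 j hj.2, Pi.smul_apply, Pi.single_eq_of_ne hj.1]
      simp
    · intro h
      have h2 := congrFun h a
      rw [Pi.add_apply, i1 a ha, Pi.smul_apply, Pi.single_eq_same, add_zero, nsmul_eq_mul,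
        mul_one, Pi.zero_apply, ZMod.natCast_eq_zero_iff] at h2
      have h3 : m = 0 := Nat.eq_zero_of_dvd_of_lt h2 (by omega)
      subst h3
      rw [zero_smul, zero_add] at h
      simp [i2 h]

/-- The standard long sequence with no zero-sum part of length `n`. -/
theorem standard (n : ℕ) (hn : 0 < n) : ∃ S : Multiset (Fin d → ZMod (p ^ k)),
    S.card = n - 1 + d * (p ^ k - 1) ∧ ∀ T ≤ S, T.card = n → T.sum ≠ 0 := by
  classical
  refine ⟨Multiset.replicate (n - 1) 0 +
    ∑ i : Fin d, Multiset.replicate (p ^ k - 1) (Pi.single i 1), ?_, ?_⟩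
  · simp [Multiset.card_sum]
  · intro T hT hc hs
    obtain ⟨T0, T1, rfl, h0, h1⟩ := le_add_cases hT
    obtain ⟨m, hm, rfl⟩ := Multiset.le_replicate_iff.1 h0
    rw [Multiset.sum_add, Multiset.sum_replicate, smul_zero, zero_add] at hs
    have h2 := (basis_free p k d Finset.univ T1 h1).2 hs
    subst h2
    simp only [add_zero, Multiset.card_replicate] at hc
    omega

theorem lower (hk : 0 < k) (hd : 0 < d) (t : ℕ) (ht : 0 < t) :
    ∃ S : Multiset (Fin d → ZMod (p ^ k)), S.sum = 0 ∧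
      S.card + 1 = p ^ k * t + (d * (p ^ k - 1) - if p ∣ d + 1 then 1 else 0) ∧
      ∀ T ≤ S, T.card = p ^ k * t → T.sum ≠ 0 := by
  have hq : 2 ≤ p ^ k := le_trans hp.out.two_le (Nat.le_self_pow hk.ne' p)
  have hpos : 1 ≤ d * (p ^ k - 1) := Nat.mul_pos hd (by omega)
  have hn : 0 < p ^ k * t := Nat.mul_pos (by omega) ht
  have e1 : d * (p ^ k - 1) + d = d * p ^ k := by
    rw [← Nat.mul_succ]
    congr 1
    omega
  have hdv : p ∣ p ^ k * t + d * p ^ k :=
    dvd_add (Dvd.dvd.mul_right (dvd_pow_self p hk.ne') t)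
      (Dvd.dvd.mul_left (dvd_pow_self p hk.ne') d)
  obtain ⟨S, h1, h2⟩ := standard p k d (p ^ k * t) hn
  split_ifs with h
  · obtain ⟨S1, a1, a2⟩ := exists_le_card S (n := S.card - 1) (by omega)
    have hnd : ¬ p ∣ S1.card := by
      intro hc
      have e2 : p ^ k * t + d * p ^ k = S1.card + (d + 1) + 1 := by omega
      rw [e2] at hdv
      exact hp.out.one_lt.ne' (Nat.dvd_one.1 ((Nat.dvd_add_right (dvd_add hc h)).1 hdv))
    obtain ⟨S', b1, b2, b3⟩ := translate p k d (p ^ k * t) (Dvd.intro _ rfl) S1 hnd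
      (fun T hT => h2 T (hT.trans a1))
    exact ⟨S', b1, by omega, b3⟩
  · have hnd : ¬ p ∣ S.card := by
      intro hc
      have e2 : p ^ k * t + d * p ^ k = S.card + (d + 1) := by omega
      rw [e2] at hdv
      exact h ((Nat.dvd_add_right hc).1 hdv)
    obtain ⟨S', b1, b2, b3⟩ := translate p k d (p ^ k * t) (Dvd.intro _ rfl) S hnd h2
    exact ⟨S', b1, by omega, b3⟩

end Pool.Agent.Lib.MP_b34cfe_co
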