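import Mathlib

set_option autoImplicit false

namespace Pool.Agent.Lib.MP_b34cfe_co

section Olson

variable {A : Type*} [AddCommGroup A] (p : ℕ) [hp : Fact p.Prime]

/-- The element one minus the basis vector of `g` in the group algebra. -/
noncomputable def uu (g : A) : AddMonoidAlgebra (ZMod p) A := 1 - AddMonoidAlgebra.single g 1

theorem uu_zero : uu p (0 : A) = 0 := by
  simp [uu, AddMonoidAlgebra.one_def]

theorem uu_add (g h : A) :
    uu p (g + h) = uu p g + AddMonoidAlgebra.single g 1 * uu p h := by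
  simp only [uu, mul_sub, mul_one, AddMonoidAlgebra.single_mul_single]
  ring

theorem charP_alg : CharP (AddMonoidAlgebra (ZMod p) A) p := by
  refine charP_of_injective_algebraMap (R := ZMod p) ?_ p
  exact (algebraMap (ZMod p) (AddMonoidAlgebra (ZMod p) A)).injective

theorem uu_pow (g : A) (n : ℕ) : uu p (p ^ n • g) = uu p g ^ p ^ n := by
  have := charP_alg (A := A) p
  simp only [uu]
  rw [sub_pow_char_pow, one_pow, AddMonoidAlgebra.single_pow, one_pow]

theorem coeff_prod (T : Multiset A) : ∀ y : A, (∀ U ≤ T, U ≠ 0 → U.sum ≠ y) →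
    (y = 0 → ((T.map (uu p)).prod).coeff y = 1) ∧ (y ≠ 0 → ((T.map (uu p)).prod).coeff y = 0) := by
  classical
  induction T using Multiset.induction_on with
  | empty =>
    intro y _
    constructor
    · rintro rfl
      simp
    · intro hy
      simp [AddMonoidAlgebra.one_def, Ne.symm hy]
  | cons a T ih =>
    intro y hy
    have h1 := ih y (fun U hU => hy U (hU.trans (Multiset.le_cons_self T a)))
    have hne : -a + y ≠ 0 := by
      intro h
      apply hy {a} (by simp) (by simp)
      rw [Multiset.sum_singleton]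
      exact neg_add_eq_zero.1 h
    have h2 := (ih (-a + y) (fun U hU _ h => by
      apply hy (a ::ₘ U) (Multiset.cons_le_cons a hU) (by simp)
      rw [Multiset.sum_cons, h]
      simp)).2 hne
    have h3 : (((a ::ₘ T).map (uu p)).prod).coeff y = ((T.map (uu p)).prod).coeff y := by
      rw [Multiset.map_cons, Multiset.prod_cons, uu, sub_mul, one_mul]
      have h4 : (AddMonoidAlgebra.single a (1 : ZMod p) * (T.map (uu p)).prod).coeff y = 0 := by
        rw [AddMonoidAlgebra.coeff_single_mul_eq_mul_coeff (-a + y), h2, mul_zero]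
        intro m' _
        constructor
        · rintro rfl
          simp
        · rintro rfl
          simp
      rw [AddMonoidAlgebra.coeff_sub, Finsupp.sub_apply, h4, sub_zero]
    rw [h3]
    exact h1

theorem prod_ne_zero (T : Multiset A) (h : ∀ U ≤ T, U ≠ 0 → U.sum ≠ 0) :
    (T.map (uu p)).prod ≠ 0 := by
  intro h0
  have := (coeff_prod p T 0 h).1 rfl
  rw [h0] at this
  simp at this

theorem sum_pow_zero {R ι : Type*} [CommSemiring R] (s : Finset ι) (x : ι → R) (n : ι → ℕ)
    (h : ∀ i, x i ^ (n i + 1) = 0) : (∑ i ∈ s, x i) ^ (∑ i ∈ s, n i + 1) = 0 := by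
  classical
  induction s using Finset.induction_on with
  | empty => simp
  | insert a s ha ih =>
    rw [Finset.sum_insert ha, Finset.sum_insert ha]
    exact (Commute.all _ _).add_pow_eq_zero_of_add_le_succ_of_pow_eq_zero (h a) ih (by omega)

theorem prod_mem_pow {R B : Type*} [CommRing R] (I : Ideal R) (f : B → R) (hf : ∀ b, f b ∈ I)
    (T : Multiset B) : (T.map f).prod ∈ I ^ T.card := by
  induction T using Multiset.induction_on with
  | empty => simp
  | cons a T ih =>
    rw [Multiset.map_cons, Multiset.prod_cons, Multiset.card_cons, pow_succ']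
    exact Ideal.mul_mem_mul (hf a) ih

theorem exists_ideal {ι : Type*} [Fintype ι] (e : ι → A) (k : ι → ℕ)
    (hk : ∀ i, p ^ k i • e i = 0) (hgen : ∀ g : A, ∃ c : ι → ℕ, g = ∑ i, c i • e i) :
    ∃ I : Ideal (AddMonoidAlgebra (ZMod p) A), (∀ g, uu p g ∈ I) ∧
      I ^ (∑ i, (p ^ k i - 1) + 1) = 0 := by
  classical
  refine ⟨∑ i, Ideal.span {uu p (e i)}, ?_, ?_⟩
  · set I : Ideal (AddMonoidAlgebra (ZMod p) A) := ∑ i, Ideal.span {uu p (e i)} with hI
    have hadd : ∀ g h : A, uu p g ∈ I → uu p h ∈ I → uu p (g + h) ∈ I := by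
      intro g h hg hh
      rw [uu_add]
      exact I.add_mem hg (I.mul_mem_left _ hh)
    have h0 : uu p (0 : A) ∈ I := by
      rw [uu_zero]
      exact I.zero_mem
    have he : ∀ i, uu p (e i) ∈ I := by
      intro i
      have : Ideal.span {uu p (e i)} ≤ I :=
        Finset.single_le_sum (f := fun i => Ideal.span {uu p (e i)}) (fun _ _ => zero_le)
          (Finset.mem_univ i)
      exact this (Ideal.mem_span_singleton_self _)
    have hn : ∀ (i : ι) (n : ℕ), uu p (n • e i) ∈ I := by
      intro i n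
      induction n with
      | zero => simpa using h0
      | succ n ih =>
        rw [succ_nsmul]
        exact hadd _ _ ih (he i)
    intro g
    obtain ⟨c, rfl⟩ := hgen g
    exact Finset.sum_induction _ (fun g => uu p g ∈ I) hadd h0 (fun i _ => hn i (c i))
  · apply sum_pow_zero
    intro i
    have h1 : p ^ k i - 1 + 1 = p ^ k i := Nat.sub_add_cancel (Nat.one_le_pow _ _ hp.out.pos)
    rw [h1, Ideal.span_singleton_pow, ← uu_pow, hk, uu_zero]
    simp

theorem le_cons_cases {B : Type*} {U T : Multiset B} {a : B} (h : U ≤ a ::ₘ T) :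
    U ≤ T ∨ ∃ U', U = a ::ₘ U' ∧ U' ≤ T := by
  classical
  by_cases ha : a ∈ U
  · obtain ⟨U', rfl⟩ := Multiset.exists_cons_of_mem ha
    exact Or.inr ⟨U', rfl, (Multiset.cons_le_cons_iff a).1 h⟩
  · exact Or.inl ((Multiset.le_cons_of_notMem ha).1 h)

/-- Olson's bound for the Davenport constant of a `p`-group. -/
theorem olson {ι : Type*} [Fintype ι] (e : ι → A) (k : ι → ℕ)
    (hk : ∀ i, p ^ k i • e i = 0) (hgen : ∀ g : A, ∃ c : ι → ℕ, g = ∑ i, c i • e i)
    (T : Multiset A) (hT : ∑ i, (p ^ k i - 1) + 1 ≤ T.card) :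
    ∃ U ≤ T, U ≠ 0 ∧ U.sum = 0 := by
  by_contra hcon
  push Not at hcon
  obtain ⟨I, h1, h2⟩ := exists_ideal p e k hk hgen
  apply prod_ne_zero p T hcon
  have := Ideal.pow_le_pow_right hT (prod_mem_pow I (uu p) h1 T)
  rw [h2] at this
  simpa using this

/-- A sequence one shorter than Olson's bound whose sum is a multiple of `p` is not zero-sum free. -/
theorem olson_mul {ι : Type*} [Fintype ι] (e : ι → A) (k : ι → ℕ)
    (hk : ∀ i, p ^ k i • e i = 0) (hgen : ∀ g : A, ∃ c : ι → ℕ, g = ∑ i, c i • e i)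
    (T : Multiset A) (hT : ∑ i, (p ^ k i - 1) ≤ T.card) (hT0 : T ≠ 0) (g : A)
    (hg : T.sum = p • g) : ∃ U ≤ T, U ≠ 0 ∧ U.sum = 0 := by
  classical
  by_contra hcon
  push Not at hcon
  obtain ⟨I, h1, h2⟩ := exists_ideal p e k hk hgen
  obtain ⟨a, ha⟩ := Multiset.exists_mem_of_ne_zero hT0
  obtain ⟨T', rfl⟩ := Multiset.exists_cons_of_mem ha
  apply prod_ne_zero p ((p • (-g)) ::ₘ T')
  · intro U hU hU0 hs
    rcases le_cons_cases hU with h | ⟨U', rfl, h⟩
    · exact hcon U (h.trans (Multiset.le_cons_self T' a)) hU0 hs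
    · obtain ⟨W, rfl⟩ := Multiset.le_iff_exists_add.1 h
      apply hcon (a ::ₘ W) (Multiset.cons_le_cons a (Multiset.le_add_left _ _)) (by simp)
      rw [Multiset.sum_cons, Multiset.sum_add] at hg
      rw [Multiset.sum_cons, smul_neg, ← hg] at hs
      rw [Multiset.sum_cons]
      have : a + W.sum = -(-(a + (U'.sum + W.sum)) + U'.sum) := by abel
      rw [this, hs, neg_zero]
  · rw [Multiset.map_cons, Multiset.prod_cons]
    have h3 : uu p (p • (-g)) ∈ I ^ p := by
      have := uu_pow p (-g) 1
      rw [pow_one] at this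
      rw [this]
      exact Ideal.pow_mem_pow (h1 _) p
    have h4 := Ideal.mul_mem_mul h3 (prod_mem_pow I (uu p) h1 T')
    rw [← pow_add] at h4
    have h5 : ∑ i, (p ^ k i - 1) + 1 ≤ p + T'.card := by
      have := hp.out.two_le
      rw [Multiset.card_cons] at hT
      omega
    have := Ideal.pow_le_pow_right h5 h4
    rw [h2] at this
    simpa using this

end Olson

end Pool.Agent.Lib.MP_b34cfe_co
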