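import Pool.Agent.Lib.MP_b34cfe_co.Exact

set_option autoImplicit false

namespace Pool.Agent.Lib.MP_b34cfe_co

section Reach

variable {A : Type*} [AddCommGroup A] (p : ℕ) [hp : Fact p.Prime]

theorem coeff_shift (P : AddMonoidAlgebra (ZMod p) A) (g : A) (h : uu p g * P = 0) (z : A) :
    P.coeff (g + z) = P.coeff z := by
  rw [uu, sub_mul, one_mul, sub_eq_zero] at h
  have h4 : (AddMonoidAlgebra.single g (1 : ZMod p) * P).coeff (g + z) = P.coeff z := by
    rw [AddMonoidAlgebra.coeff_single_mul_eq_mul_coeff z, one_mul]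
    intro m' _
    exact add_right_inj g
  rw [← h] at h4
  exact h4

theorem coeff_closure (P : AddMonoidAlgebra (ZMod p) A) (W : Set A)
    (h : ∀ g ∈ W, uu p g * P = 0) (x : A) (hx : x ∈ AddSubgroup.closure W) :
    ∀ z, P.coeff (x + z) = P.coeff z := by
  induction hx using AddSubgroup.closure_induction with
  | mem g hg => exact coeff_shift p P g (h g hg)
  | zero => simp
  | add a b _ _ ha hb =>
    intro z
    rw [add_assoc, ha, hb]
  | neg a _ ha =>
    intro z
    have := ha (-a + z)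
    rw [add_neg_cancel_left] at this
    exact this.symm

theorem exists_sub_of_coeff (T : Multiset A) (y : A) (h : ((T.map (uu p)).prod).coeff y ≠ 0) :
    ∃ U ≤ T, U.sum = y := by
  by_cases hy : y = 0
  · exact ⟨0, Multiset.zero_le _, by simp [hy]⟩
  by_contra hcon
  push Not at hcon
  exact h ((coeff_prod p T y (fun U hU _ => hcon U hU)).2 hy)

/-- In a long sequence over a `p`-group, a common multiple of all terms is a short subsum. -/
theorem reach [Finite A] {N : ℕ} (hA : Nat.card A = p ^ N) (E : ℕ)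
    (hE : ∀ T : Multiset A, E < T.card → (T.map (uu p)).prod = 0) (M n : ℕ) (y : A) (j : ℕ) :
    ∀ S : Multiset A, (∀ x ∈ S, p ^ M ∣ addOrderOf x ∧ y = n • x) →
      Nat.card (AddSubgroup.closure {x | x ∈ S}) ≤ p ^ j → (j + 1 - M) * E + 1 ≤ S.card →
        ∃ U ≤ S, U.card ≤ E ∧ U.sum = y := by
  classical
  induction j using Nat.strong_induction_on with
  | _ j ih =>
  intro S hS hcard hlen
  have hS0 : S ≠ 0 := by
    rintro rfl
    simp at hlen
  have hjM : M ≤ j := by
    obtain ⟨x, hx⟩ := Multiset.exists_mem_of_ne_zero hS0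
    have h1 : addOrderOf x ∣ Nat.card (AddSubgroup.closure {x | x ∈ S}) :=
      AddSubgroup.addOrderOf_dvd_natCard _ (AddSubgroup.subset_closure hx)
    have h2 := Nat.le_of_dvd Nat.card_pos ((hS x hx).1.trans h1)
    exact (Nat.pow_le_pow_iff_right hp.out.one_lt).1 (h2.trans hcard)
  obtain ⟨T, hT, hmax⟩ := Finset.exists_max_image
    ((Finset.Iic S).filter fun T => (T.map (uu p)).prod ≠ 0) Multiset.card ⟨0, by simp⟩
  rw [Finset.mem_filter, Finset.mem_Iic] at hT
  have hTE : T.card ≤ E := by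
    by_contra h
    exact hT.2 (hE T (by omega))
  obtain ⟨W, rfl⟩ := Multiset.le_iff_exists_add.1 hT.1
  have e1 : j + 1 - M = j - M + 1 := by omega
  rw [Multiset.card_add, e1, add_mul, one_mul] at hlen
  have hkill : ∀ g ∈ {x | x ∈ W}, uu p g * (T.map (uu p)).prod = 0 := by
    intro g hg
    by_contra hne
    have h1 := hmax (g ::ₘ T) (by
      rw [Finset.mem_filter, Finset.mem_Iic]
      refine ⟨?_, by simpa using hne⟩
      obtain ⟨W', rfl⟩ := Multiset.exists_cons_of_mem hg
      rw [Multiset.add_cons, ← Multiset.cons_add]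
      exact Multiset.le_add_right _ _)
    rw [Multiset.card_cons] at h1
    omega
  have hle : AddSubgroup.closure {x | x ∈ W} ≤ AddSubgroup.closure {x | x ∈ T + W} :=
    AddSubgroup.closure_mono fun x hx => Multiset.mem_add.2 (Or.inr hx)
  rcases hle.lt_or_eq with hlt | heq
  · have h1 : Nat.card (AddSubgroup.closure {x | x ∈ W}) <
        Nat.card (AddSubgroup.closure {x | x ∈ T + W}) := by
      refine lt_of_le_of_ne (AddSubgroup.card_le_of_le hle) fun h => hlt.ne ?_
      exact AddSubgroup.eq_of_le_of_card_ge hle h.ge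
    have h2 : Nat.card (AddSubgroup.closure {x | x ∈ W}) ∣ p ^ N :=
      hA ▸ AddSubgroup.card_addSubgroup_dvd_card _
    obtain ⟨i, -, hi⟩ := (Nat.dvd_prime_pow hp.out).1 h2
    have h3 : i < j := by
      rw [hi] at h1
      exact (Nat.pow_lt_pow_iff_right hp.out.one_lt).1 (h1.trans_le hcard)
    obtain ⟨U, a1, a2, a3⟩ := ih i h3 W (fun x hx => hS x (Multiset.mem_add.2 (Or.inr hx))) hi.le (by
      have : (i + 1 - M) * E ≤ (j - M) * E := Nat.mul_le_mul_right _ (by omega)
      omega)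
    exact ⟨U, a1.trans (Multiset.le_add_left _ _), a2, a3⟩
  · have h1 : ∃ z, ((T.map (uu p)).prod).coeff z ≠ 0 := by
      by_contra hcon
      push Not at hcon
      apply hT.2
      ext z
      simp [hcon z]
    obtain ⟨z, hz⟩ := h1
    obtain ⟨U, b1, b2⟩ := exists_sub_of_coeff p T z hz
    have hzm : z ∈ AddSubgroup.closure {x | x ∈ W} := by
      rw [heq, ← b2]
      exact AddSubgroup.multiset_sum_mem _ _ fun x hx =>
        AddSubgroup.subset_closure (Multiset.mem_add.2 (Or.inl (Multiset.mem_of_le b1 hx)))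
    have hym : y ∈ AddSubgroup.closure {x | x ∈ W} := by
      rw [heq]
      obtain ⟨x, hx⟩ := Multiset.exists_mem_of_ne_zero hS0
      rw [(hS x hx).2]
      exact AddSubgroup.nsmul_mem _
        (AddSubgroup.subset_closure (k := {x | x ∈ T + W}) hx) n
    have h2 := coeff_closure p _ _ hkill (y - z) (AddSubgroup.sub_mem _ hym hzm) z
    rw [sub_add_cancel] at h2
    obtain ⟨V, c1, c2⟩ := exists_sub_of_coeff p T y (h2 ▸ hz)
    exact ⟨V, c1.trans (Multiset.le_add_right _ _), (Multiset.card_le_card c1).trans hTE, c2⟩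

end Reach

variable (p : ℕ) [hp : Fact p.Prime] (k d M : ℕ)

theorem residue (t : ℕ) (S : Multiset (Fin d → ZMod (p ^ k)))
    (hS : (k * d + 1) * (p ^ M - 1 + d * (p ^ k - 1)) + 1 ≤ S.card) :
    ∃ U ≤ S, U.card ≤ p ^ M - 1 + d * (p ^ k - 1) ∧ U.sum = 0 ∧
      U.card ≡ p ^ k * t [MOD p ^ M] := by
  have : NeZero (p ^ k) := ⟨pow_ne_zero _ hp.out.ne_zero⟩
  have : NeZero (p ^ M) := ⟨pow_ne_zero _ hp.out.ne_zero⟩
  have hA : Nat.card ((Fin d → ZMod (p ^ k)) × ZMod (p ^ M)) = p ^ (k * d + M) := by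
    rw [Nat.card_prod, Nat.card_pi, pow_add, pow_mul]
    simp
  obtain ⟨I, i1, i2⟩ := exists_ideal p (gen p k d M) (expo k d M) (gen_pow p k d M)
    (gen_span p k d M)
  rw [sum_expo] at i2
  obtain ⟨U, a1, a2, a3⟩ := reach p hA (p ^ M - 1 + d * (p ^ k - 1)) (by
      intro T hT
      have := Ideal.pow_le_pow_right (Nat.succ_le_of_lt hT) (prod_mem_pow I (uu p) i1 T)
      rw [Nat.succ_eq_add_one, i2] at this
      simpa using this) M (p ^ k * t) (0, ((p ^ k * t : ℕ) : ZMod (p ^ M))) (k * d + M)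
    (S.map (fun g => (g, (1 : ZMod (p ^ M))))) (by
      intro x hx
      obtain ⟨g, -, rfl⟩ := Multiset.mem_map.1 hx
      constructor
      · have h1 := addOrderOf_nsmul_eq_zero (g, (1 : ZMod (p ^ M)))
        have h2 := congrArg Prod.snd h1
        rw [Prod.smul_snd, Prod.snd_zero, nsmul_eq_mul, mul_one] at h2
        exact (ZMod.natCast_eq_zero_iff _ _).1 h2
      · ext j
        · rw [Prod.smul_fst, Pi.smul_apply, nsmul_eq_mul,
            (ZMod.natCast_eq_zero_iff (p ^ k * t) (p ^ k)).2 (Dvd.intro _ rfl), zero_mul]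
          rfl
        · simp)
    (hA ▸ AddSubgroup.card_le_card_addGroup _) (by
      rw [Multiset.card_map]
      have : k * d + M + 1 - M = k * d + 1 := by omega
      rw [this]
      exact hS)
  obtain ⟨T, hT, rfl⟩ := le_map_cases _ _ _ a1
  have h1 : ∀ T : Multiset (Fin d → ZMod (p ^ k)),
      (T.map (fun g => (g, (1 : ZMod (p ^ M))))).sum = (T.sum, (T.card : ZMod (p ^ M))) := by
    intro T
    induction T using Multiset.induction_on with
    | empty => simp [Prod.ext_iff]
    | cons a T ih => simp [ih, add_comm]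
  rw [h1, Prod.mk.injEq] at a3
  rw [Multiset.card_map] at a2
  exact ⟨T, hT, a2, a3.1, (ZMod.natCast_eq_natCast_iff _ _ _).1 a3.2⟩

theorem upper_poly (hk : 0 < k) (hd : 0 < d) (t : ℕ) (ht : (p + 1) * d * (k * d + 1) ≤ t) :
    Pr (G := Fin d → ZMod (p ^ k)) (p ^ k * t)
      (d * (p ^ k - 1) - if p ∣ d + 1 then 1 else 0) := by
  classical
  have hq : 2 ≤ p ^ k := le_trans hp.out.two_le (Nat.le_self_pow hk.ne' p)
  have hex : ∃ a, d * (p ^ k - 1) < p ^ k * p ^ a := by
    refine ⟨d * (p ^ k - 1), lt_of_lt_of_le (Nat.lt_pow_self hp.out.one_lt) ?_⟩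
    exact Nat.le_mul_of_pos_left _ (by omega)
  have ha := Nat.find_spec hex
  have hQ : p ^ k * p ^ Nat.find hex ≤ p * d * p ^ k := by
    rcases h : Nat.find hex with _ | a
    · rw [pow_zero, mul_one]
      exact Nat.le_mul_of_pos_left _ (Nat.mul_pos hp.out.pos hd)
    · have h1 := Nat.find_min hex (m := a) (by omega)
      have h2 : d * (p ^ k - 1) ≤ d * p ^ k := Nat.mul_le_mul_left _ (by omega)
      calc p ^ k * p ^ (a + 1) = p * (p ^ k * p ^ a) := by ring
        _ ≤ p * (d * p ^ k) := Nat.mul_le_mul_left _ (by omega)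
        _ = p * d * p ^ k := by ring
  set a := Nat.find hex
  have hE : p ^ (k + a) - 1 + d * (p ^ k - 1) + 1 ≤ (p + 1) * d * p ^ k := by
    have h2 : d * (p ^ k - 1) ≤ d * p ^ k := Nat.mul_le_mul_left _ (by omega)
    have h3 : (p + 1) * d * p ^ k = p * d * p ^ k + d * p ^ k := by ring
    rw [pow_add]
    omega
  have hbig : (k * d + 1) * (p ^ (k + a) - 1 + d * (p ^ k - 1)) + 1 ≤ p ^ k * t := by
    calc (k * d + 1) * (p ^ (k + a) - 1 + d * (p ^ k - 1)) + 1
        ≤ (k * d + 1) * (p ^ (k + a) - 1 + d * (p ^ k - 1) + 1) := by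
          rw [mul_add (k * d + 1) _ 1]
          omega
      _ ≤ (k * d + 1) * ((p + 1) * d * p ^ k) := Nat.mul_le_mul_left _ hE
      _ = p ^ k * ((p + 1) * d * (k * d + 1)) := by ring
      _ ≤ p ^ k * t := Nat.mul_le_mul_left _ ht
  intro S hS0 hS
  obtain ⟨U, a1, a2, a3, a4⟩ := residue p k d (k + a) t S (by omega)
  have hUle : U.card ≤ p ^ k * t := by
    have : p ^ (k + a) - 1 + d * (p ^ k - 1) ≤
        (k * d + 1) * (p ^ (k + a) - 1 + d * (p ^ k - 1)) := Nat.le_mul_of_pos_left _ (by omega)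
    omega
  obtain ⟨m, hm⟩ := (Nat.modEq_iff_dvd' hUle).1 a4
  rcases m with _ | m
  · exact ⟨U, a1, by omega, a3⟩
  · obtain ⟨W, rfl⟩ := Multiset.le_iff_exists_add.1 a1
    rw [Multiset.sum_add, a3, zero_add] at hS0
    rw [Multiset.card_add] at hS
    rw [pow_add, mul_assoc] at hm
    obtain ⟨V, b1, b2, b3⟩ := upper_mul p k d hk hd a ha m W hS0 (by omega)
    refine ⟨U + V, add_le_add_right b1 _, ?_, ?_⟩
    · rw [Multiset.card_add, b2]
      omega
    · rw [Multiset.sum_add, a3, b3, add_zero]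

end Pool.Agent.Lib.MP_b34cfe_co
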